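import Mathlib
import Pool.Agent.H13.Ta.Stm
import Pool.Agent.H22.Tf.Rlm
import Pool.Agent.H14.Tf.Base

/-!
# Module R4ii, (R2): relations of weights and the group `RW`
-/

set_option autoImplicit false
set_option linter.unusedSectionVars false
set_option linter.unusedVariables false

namespace Pool.Agent.H64.Ta

open Matrix
open scoped InnerProductSpace
open Pool.Agent.Q60.ED Pool.Agent.Q271.ZG Pool.Agent.H24.Lin Pool.Agent.H24.Lw Pool.Agent.H24.Tf
open Pool.Agent.H13.Ta
open Pool.Agent.H22.Tf (QL mem_QL QL_le Fw Fw_apply Fw_single Fw_mem rel_of' top_sub)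
open Pool.Agent.Q251.ZG (dg_alpha_mem Cl)
open Pool.Agent.H32.Tf (rt_toLp)
open Pool.Agent.Q162.ZG (dg_alpha_mem_der)

variable {σ : Type} [Fintype σ] [DecidableEq σ] {G : Submodule ℂ (Matrix σ σ ℂ)} {ρ : σ → ℝ}
  {r : ℕ} {e : Fin r → Matrix σ σ ℂ} {α : Fin r → σ → ℝ} {top : σ → σ} {nn : σ → Fin r → ℕ}

/-- a pure top coordinate of type `t` -/
def Pure (e : Fin r → Matrix σ σ ℂ) (α : Fin r → σ → ℝ) (j : σ) (t : Fin r) : Prop :=
  (∀ x i, e x i j = 0) ∧ 0 < α t j ∧ ∀ a, a ≠ t → α a j = 0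

/-- an element of the root lattice gives a relation -/
theorem rel_conv (hA : Adapted G ρ) (hS : Simple G ρ r e α) (hT : Top G r e α top nn) {a : σ → ℤ}
    (h : Fw α a ∈ QL α) : IsRel G α top a := by
  have h1 : ∑ x, (a x : ℝ) • pr α (top x) ∈ QL α := by
    have e1 : ∑ x, (a x : ℝ) • pr α (top x) = Fw α a + ∑ x, a x • (pr α (top x) - pr α x) := by
      rw [Fw_apply, ← Finset.sum_add_distrib]
      refine Finset.sum_congr rfl fun x _ => ?_
      rw [smul_sub, ← Int.cast_smul_eq_zsmul ℝ, ← Int.cast_smul_eq_zsmul ℝ]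
      abel
    rw [e1]
    exact (QL α).add_mem h ((QL α).sum_mem fun x _ => (QL α).zsmul_mem (top_sub hA hS hT x) _)
  obtain ⟨m, hm⟩ := h1
  refine ⟨m, fun s hs => ?_⟩
  have hx := torus_span hA hS hs
  have h1 : ∀ x, s x = ⟪pr α x, (WithLp.toLp 2 s : EuclideanSpace ℝ σ)⟫_ℝ := fun x =>
    (pr_inner x hx).symm
  calc ∑ x, (a x : ℝ) * s (top x)
      = ⟪∑ x, (a x : ℝ) • pr α (top x), (WithLp.toLp 2 s : EuclideanSpace ℝ σ)⟫_ℝ := by
        rw [sum_inner]
        refine Finset.sum_congr rfl fun x _ => ?_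
        rw [real_inner_smul_left, ← h1]
    _ = ∑ c, (m c : ℝ) * (α c ⬝ᵥ s) := by
        rw [hm, sum_inner]
        refine Finset.sum_congr rfl fun c _ => ?_
        rw [real_inner_smul_left, rt_toLp]

/-- the relations are the integral combinations of coordinates whose weight is in the root lattice -/
theorem isRel_iff (hA : Adapted G ρ) (hS : Simple G ρ r e α) (hT : Top G r e α top nn)
    {a : σ → ℤ} : IsRel G α top a ↔ Fw α a ∈ QL α := by
  refine ⟨?_, rel_conv hA hS hT⟩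
  rintro ⟨m, hm⟩
  exact rel_of' hA hS hT hm

section tuple

variable {p : ℕ} {𝓗 : Set (Matrix σ σ ℂ)} {n : ℕ} {F : Fin n → Matrix σ σ ℂ} {w : Fin n → Prop}

/-- (a) tuples of at most `p` coordinates -/
theorem tuple_mem (hcv : S_CV) (hA : Adapted G ρ) (Hg : ∀ h ∈ 𝓗, h ∈ G)
    (Hi : ∀ h ∈ 𝓗, h * h = 1) {k : ℕ} (hk : k ≤ p) (t : Fin k → σ)
    (h : ∃ m : Fin r → ℤ, ∀ s : σ → ℝ, dg s ∈ der G →
      ∑ l, s (top (t l)) = ∑ c, (m c : ℝ) * (α c ⬝ᵥ s)) :
    ∑ l, Pi.single (t l) 1 ∈ RW p G 𝓗 α top F w := by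
  refine AddSubgroup.mem_sup_left (AddSubgroup.subset_closure ⟨k, t, h, ?_, rfl⟩)
  intro g hg
  have h1 : |(∑ l, cv G g (t l)).re| ≤ k := by
    rw [Complex.re_sum]
    refine (Finset.abs_sum_le_sum_abs _ _).trans ?_
    refine (Finset.sum_le_sum fun l _ => (hcv σ G ρ hA g (Hg g hg) (Hi g hg) (t l)).1).trans ?_
    simp
  have h2 : (k : ℝ) ≤ p := by exact_mod_cast hk
  linarith

/-- (a) with the weights in the Euclidean space -/
theorem tuple_mem' (hcv : S_CV) (hA : Adapted G ρ) (hS : Simple G ρ r e α)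
    (hT : Top G r e α top nn) (Hg : ∀ h ∈ 𝓗, h ∈ G) (Hi : ∀ h ∈ 𝓗, h * h = 1) {k : ℕ} (hk : k ≤ p)
    (t : Fin k → σ) (h : ∑ l, pr α (t l) ∈ QL α) :
    ∑ l, Pi.single (t l) 1 ∈ RW p G 𝓗 α top F w := by
  refine tuple_mem hcv hA Hg Hi hk t ?_
  have h1 : IsRel G α top (∑ l, Pi.single (t l) 1) := by
    refine rel_conv hA hS hT ?_
    rw [map_sum]
    simp only [Fw_single]
    exact h
  obtain ⟨m, hm⟩ := h1
  refine ⟨m, fun s hs => ?_⟩
  rw [← hm s hs]
  have e1 : ∀ j, ((∑ l, Pi.single (t l) (1 : ℤ) : σ → ℤ) j : ℝ) =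
      ∑ l, ((Pi.single (t l) (1 : ℤ) : σ → ℤ) j : ℝ) := by
    intro j
    rw [Finset.sum_apply]
    push_cast
    rfl
  calc ∑ l, s (top (t l)) = ∑ l, ∑ j, ((Pi.single (t l) (1 : ℤ) : σ → ℤ) j : ℝ) * s (top j) := by
        refine Finset.sum_congr rfl fun l _ => ?_
        rw [Finset.sum_eq_single (t l)]
        · rw [Pi.single_eq_same, Int.cast_one, one_mul]
        · intro y _ hy
          rw [Pi.single_eq_of_ne hy, Int.cast_zero, zero_mul]
        · intro h
          exact absurd (Finset.mem_univ _) h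
    _ = _ := by
        rw [Finset.sum_comm]
        refine Finset.sum_congr rfl fun j _ => ?_
        rw [e1, Finset.sum_mul]

end tuple

/-- (b) the dual coordinate -/
theorem exists_dual (hA : Adapted G ρ) (hS : Simple G ρ r e α) {B : Matrix σ σ ℂ}
    (hB : AltF G B) (j : σ) : ∃ j', (∀ s : σ → ℝ, dg s ∈ G → s j + s j' = 0) ∧
      pr α j + pr α j' = 0 := by
  obtain ⟨j', hj'⟩ : ∃ j', B j j' ≠ 0 := by
    by_contra h
    push Not at h
    exact hB.det (Matrix.det_eq_zero_of_row_eq_zero j h)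
  have h1 : ∀ s : σ → ℝ, dg s ∈ G → s j + s j' = 0 := by
    intro s hs
    have h2 := congrFun (congrFun (hB.inv _ hs) j) j'
    unfold dg at h2
    rw [Matrix.add_apply, Matrix.diagonal_transpose, Matrix.diagonal_mul, Matrix.mul_diagonal,
      Matrix.zero_apply, mul_comm (B j j'), ← add_mul] at h2
    have h3 := (mul_eq_zero.1 h2).resolve_right hj'
    exact_mod_cast h3
  refine ⟨j', h1, ext_rtS (Submodule.add_mem _ (pr_mem _) (pr_mem _)) (Submodule.zero_mem _)
    fun a => ?_⟩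
  rw [inner_add_left, pr_rt, pr_rt, inner_zero_left]
  exact h1 _ (dg_alpha_mem hA hS a)

section mem

variable {p : ℕ} {𝓗 : Set (Matrix σ σ ℂ)} {n : ℕ} {F : Fin n → Matrix σ σ ℂ} {w : Fin n → Prop}

/-- (a) two coordinates -/
theorem pair_mem (hcv : S_CV) (hA : Adapted G ρ) (hS : Simple G ρ r e α)
    (hT : Top G r e α top nn) (Hg : ∀ h ∈ 𝓗, h ∈ G) (Hi : ∀ h ∈ 𝓗, h * h = 1) (hp : 2 ≤ p)
    {x y : σ} (h : pr α x + pr α y ∈ QL α) :
    (Pi.single x 1 + Pi.single y 1 : σ → ℤ) ∈ RW p G 𝓗 α top F w := by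
  have h' := tuple_mem' (F := F) (w := w) hcv hA hS hT Hg Hi (k := 2) hp ![x, y] (by
    rw [Fin.sum_univ_two]
    exact h)
  rw [Fin.sum_univ_two] at h'
  exact h'

/-- (b) the dual coordinate, in `RW` -/
theorem exists_dual_mem (hcv : S_CV) (hA : Adapted G ρ) (hS : Simple G ρ r e α)
    (hT : Top G r e α top nn) (Hg : ∀ h ∈ 𝓗, h ∈ G) (Hi : ∀ h ∈ 𝓗, h * h = 1) (hp : 2 ≤ p)
    {B : Matrix σ σ ℂ} (hB : AltF G B) (j : σ) :
    ∃ j', pr α j + pr α j' = 0 ∧
      (∃ m : Fin r → ℤ, ∀ s : σ → ℝ, dg s ∈ der G →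
        s (top j) + s (top j') = ∑ c, (m c : ℝ) * (α c ⬝ᵥ s)) ∧
      (Pi.single j 1 + Pi.single j' 1 : σ → ℤ) ∈ RW p G 𝓗 α top F w := by
  obtain ⟨j', -, h⟩ := exists_dual hA hS hB j
  have h0 : pr α j + pr α j' ∈ QL α := by
    rw [h]
    exact (QL α).zero_mem
  refine ⟨j', h, ?_, pair_mem hcv hA hS hT Hg Hi hp h0⟩
  have h1 : IsRel G α top (Pi.single j 1 + Pi.single j' 1) := by
    refine rel_conv hA hS hT ?_
    rw [map_add, Fw_single, Fw_single]
    exact h0
  obtain ⟨m, hm⟩ := h1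
  refine ⟨m, fun s hs => ?_⟩
  rw [← hm s hs]
  have e1 : ∀ x : σ, ∑ y, ((Pi.single x (1 : ℤ) : σ → ℤ) y : ℝ) * s (top y) = s (top x) := by
    intro x
    rw [Finset.sum_eq_single x]
    · rw [Pi.single_eq_same, Int.cast_one, one_mul]
    · intro y _ hy
      rw [Pi.single_eq_of_ne hy, Int.cast_zero, zero_mul]
    · intro h
      exact absurd (Finset.mem_univ _) h
  rw [← e1 j, ← e1 j', ← Finset.sum_add_distrib]
  refine Finset.sum_congr rfl fun y _ => ?_
  rw [Pi.add_apply, Int.cast_add, add_mul]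

/-- differences of coordinates with weights congruent modulo the root lattice -/
theorem sub_mem (hcv : S_CV) (hA : Adapted G ρ) (hS : Simple G ρ r e α)
    (hT : Top G r e α top nn) (Hg : ∀ h ∈ 𝓗, h ∈ G) (Hi : ∀ h ∈ 𝓗, h * h = 1) (hp : 2 ≤ p)
    {B : Matrix σ σ ℂ} (hB : AltF G B) {x y : σ} (h : pr α x - pr α y ∈ QL α) :
    (Pi.single x 1 - Pi.single y 1 : σ → ℤ) ∈ RW p G 𝓗 α top F w := by
  obtain ⟨y', h1, -, h2⟩ := exists_dual_mem (F := F) (w := w) hcv hA hS hT Hg Hi hp hB y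
  have h3 : (Pi.single x 1 + Pi.single y' 1 : σ → ℤ) ∈ RW p G 𝓗 α top F w := by
    refine pair_mem hcv hA hS hT Hg Hi hp ?_
    have e1 : pr α x + pr α y' = (pr α x - pr α y) + (pr α y + pr α y') := by abel
    rw [e1, h1, add_zero]
    exact h
  have e1 : (Pi.single x 1 - Pi.single y 1 : σ → ℤ) =
      (Pi.single x 1 + Pi.single y' 1) - (Pi.single y 1 + Pi.single y' 1) := by abel
  rw [e1]
  exact AddSubgroup.sub_mem _ h3 h2

/-- the weight of a pure coordinate is determined by the type -/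
theorem pure_pr (hA : Adapted G ρ) (hS : Simple G ρ r e α) (hmin : ∀ a, e a * e a = 0)
    {j : σ} {t : Fin r} (hj : Pure e α j t) (b : Fin r) :
    α b j = if b = t then (α b ⬝ᵥ α b) / 2 else 0 := by
  by_cases hb : b = t
  · rw [if_pos hb]
    subst hb
    have h1 := dot_pos hS b
    have h2 := hj.2.1
    rcases tri hA hS hmin b j with h | h | h
    · exact h
    · rw [h] at h2
      exact absurd h2 (lt_irrefl _)
    · rw [h] at h2
      linarith
  · rw [if_neg hb]
    exact hj.2.2 b hb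

theorem pure_eq (hA : Adapted G ρ) (hS : Simple G ρ r e α) (hmin : ∀ a, e a * e a = 0)
    {j j' : σ} {t : Fin r} (hj : Pure e α j t) (hj' : Pure e α j' t) : pr α j = pr α j' := by
  refine ext_rtS (pr_mem _) (pr_mem _) fun b => ?_
  rw [pr_rt, pr_rt, pure_pr hA hS hmin hj, pure_pr hA hS hmin hj']

/-- (c) two pure coordinates of the same type -/
theorem pure_same (hcv : S_CV) (hA : Adapted G ρ) (hS : Simple G ρ r e α)
    (hmin : ∀ a, e a * e a = 0) (hT : Top G r e α top nn) (Hg : ∀ h ∈ 𝓗, h ∈ G)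
    (Hi : ∀ h ∈ 𝓗, h * h = 1) (hp : 2 ≤ p) {B : Matrix σ σ ℂ} (hB : AltF G B) {j j' : σ}
    {t : Fin r} (hj : Pure e α j t) (hj' : Pure e α j' t) :
    (Pi.single j 1 - Pi.single j' 1 : σ → ℤ) ∈ RW p G 𝓗 α top F w := by
  refine sub_mem hcv hA hS hT Hg Hi hp hB ?_
  rw [pure_eq hA hS hmin hj hj', sub_self]
  exact (QL α).zero_mem

end mem

/-- the weight of an integral combination of pure coordinates -/
theorem Fw_pure (hA : Adapted G ρ) (hS : Simple G ρ r e α) (hmin : ∀ a, e a * e a = 0)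
    {n : Fin r → ℤ} {q : Fin r → σ} (hq : ∀ t, n t ≠ 0 → Pure e α (q t) t) :
    Fw α (∑ t, n t • Pi.single (q t) 1) ∈ QL α ↔ Pool.Agent.H14.Tf.Rel (rt α) n := by
  have hF : Fw α (∑ t, n t • Pi.single (q t) 1) = ∑ t, (n t : ℝ) • pr α (q t) := by
    rw [map_sum]
    refine Finset.sum_congr rfl fun t _ => ?_
    rw [map_zsmul, Fw_single, Int.cast_smul_eq_zsmul]
  have hin : ∀ b, ⟪∑ t, (n t : ℝ) • pr α (q t), rt α b⟫_ℝ =
      (n b : ℝ) * (⟪rt α b, rt α b⟫_ℝ / 2) := by
    intro b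
    rw [sum_inner, Finset.sum_eq_single b]
    · rw [real_inner_smul_left, pr_rt]
      by_cases h0 : n b = 0
      · rw [h0]
        simp
      · rw [pure_pr hA hS hmin (hq b h0), if_pos rfl, rt_inner]
    · intro t _ ht
      rw [real_inner_smul_left, pr_rt]
      by_cases h0 : n t = 0
      · rw [h0]
        simp
      · rw [(hq t h0).2.2 b (fun h => ht h.symm), mul_zero]
    · intro h
      exact absurd (Finset.mem_univ _) h
  rw [hF]
  constructor
  · rintro ⟨m, hm⟩
    refine ⟨m, fun b => ?_⟩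
    rw [← hin, hm, sum_inner]
    refine Finset.sum_congr rfl fun c _ => ?_
    rw [real_inner_smul_left]
  · rintro ⟨m, hm⟩
    refine ⟨m, ext_rtS (Submodule.sum_mem _ fun c _ => Submodule.smul_mem _ _ (pr_mem _))
      (Submodule.sum_mem _ fun c _ => Submodule.smul_mem _ _ (rt_mem c)) fun b => ?_⟩
    rw [hin, hm, sum_inner]
    refine Finset.sum_congr rfl fun c _ => ?_
    rw [real_inner_smul_left]

/-- (d) -/
theorem isRel_pure (hA : Adapted G ρ) (hS : Simple G ρ r e α) (hmin : ∀ a, e a * e a = 0)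
    (hT : Top G r e α top nn) {n : Fin r → ℤ} {q : Fin r → σ}
    (hq : ∀ t, n t ≠ 0 → Pure e α (q t) t) :
    IsRel G α top (∑ t, n t • Pi.single (q t) 1) ↔ Pool.Agent.H14.Tf.Rel (rt α) n := by
  rw [isRel_iff hA hS hT]
  exact Fw_pure hA hS hmin hq

/-- (e) the relations form a group -/
def RG' (G : Submodule ℂ (Matrix σ σ ℂ)) (α : Fin r → σ → ℝ) (top : σ → σ) :
    AddSubgroup (σ → ℤ) where
  carrier := {a | IsRel G α top a}
  zero_mem' := ⟨0, fun s _ => by simp⟩
  add_mem' := by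
    rintro a b ⟨m, hm⟩ ⟨m', hm'⟩
    refine ⟨m + m', fun s hs => ?_⟩
    simp only [Pi.add_apply, Int.cast_add, add_mul, Finset.sum_add_distrib]
    rw [hm s hs, hm' s hs]
  neg_mem' := by
    rintro a ⟨m, hm⟩
    refine ⟨-m, fun s hs => ?_⟩
    simp only [Pi.neg_apply, Int.cast_neg, neg_mul, Finset.sum_neg_distrib]
    rw [hm s hs]

theorem mem_RG' {a : σ → ℤ} : a ∈ RG' G α top ↔ IsRel G α top a := Iff.rfl

/-- tuples are relations -/
theorem isRel_tuple {k : ℕ} (t : Fin k → σ)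
    (h : ∃ m : Fin r → ℤ, ∀ s : σ → ℝ, dg s ∈ der G →
      ∑ l, s (top (t l)) = ∑ c, (m c : ℝ) * (α c ⬝ᵥ s)) :
    IsRel G α top (∑ l, Pi.single (t l) 1) := by
  obtain ⟨m, hm⟩ := h
  refine ⟨m, fun s hs => ?_⟩
  rw [← hm s hs]
  have e1 : ∀ j, ((∑ l, Pi.single (t l) (1 : ℤ) : σ → ℤ) j : ℝ) =
      ∑ l, ((Pi.single (t l) (1 : ℤ) : σ → ℤ) j : ℝ) := by
    intro j
    rw [Finset.sum_apply]
    push_cast
    rfl
  symm
  calc ∑ l, s (top (t l)) = ∑ l, ∑ j, ((Pi.single (t l) (1 : ℤ) : σ → ℤ) j : ℝ) * s (top j) := by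
        refine Finset.sum_congr rfl fun l _ => ?_
        rw [Finset.sum_eq_single (t l)]
        · rw [Pi.single_eq_same, Int.cast_one, one_mul]
        · intro y _ hy
          rw [Pi.single_eq_of_ne hy, Int.cast_zero, zero_mul]
        · intro h
          exact absurd (Finset.mem_univ _) h
    _ = _ := by
        rw [Finset.sum_comm]
        refine Finset.sum_congr rfl fun j _ => ?_
        rw [e1, Finset.sum_mul]

/-- the trace of an idempotent is its rank -/
theorem trace_rank {P : Matrix σ σ ℂ} (h : P * P = P) : P.trace = (P.rank : ℂ) := by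
  have h1 : IsIdempotentElem (Matrix.toLin' P) := by
    unfold IsIdempotentElem
    rw [Module.End.mul_eq_comp, ← Matrix.toLin'_mul, h]
  rw [← Matrix.trace_toLin'_eq, (LinearMap.IsIdempotentElem.isProj_range _ h1).trace]
  rfl

/-- commuting with the torus: entries only between coordinates of the same weight -/
theorem pr_of_comm (hA : Adapted G ρ) (hS : Simple G ρ r e α) {F : Matrix σ σ ℂ}
    (hF : ∀ y ∈ G, F * y = y * F) {k l : σ} (h : F k l ≠ 0) : pr α k = pr α l := by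
  refine ext_rtS (pr_mem _) (pr_mem _) fun a => ?_
  rw [pr_rt, pr_rt]
  have h1 := congrFun (congrFun (hF _ (dg_alpha_mem hA hS a)) k) l
  unfold dg at h1
  rw [Matrix.mul_diagonal, Matrix.diagonal_mul, mul_comm (F k l)] at h1
  have h2 := mul_right_cancel₀ h h1
  exact_mod_cast h2.symm

/-- (e) the determinants -/
theorem det_rel (hA : Adapted G ρ) (hS : Simple G ρ r e α) (hT : Top G r e α top nn)
    {F : Matrix σ σ ℂ} (hF : ∀ y ∈ G, F * y = y * F) (hFF : F * F = F)
    (hirr : ∀ c : Matrix σ σ ℂ, (∀ y ∈ G, c * y = y * c) → ∃ a : ℂ, F * c * F = a • F)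
    {j : σ} (hj : F *ᵥ Pi.single j 1 ≠ 0) : (F.rank : ℝ) • pr α j ∈ QL α := by
  classical
  obtain ⟨i, hi⟩ : ∃ i, F i j ≠ 0 := by
    by_contra h
    push Not at h
    refine hj (funext fun i => ?_)
    rw [Matrix.mulVec_single_one]
    exact h i
  -- rows which are not zero belong to the class of `j`
  have hcl : ∀ k l, F k l ≠ 0 → pr α k - pr α j ∈ QL α := by
    intro k l hkl
    have hk : Cl G k j := by
      intro z hz
      have hzd := hA.ctr z hz
      have hz' : z = diagonal fun x => z x x := by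
        ext x y
        by_cases hxy : x = y
        · subst hxy
          rw [Matrix.diagonal_apply_eq]
        · rw [Matrix.diagonal_apply_ne _ hxy, hzd x y hxy]
      obtain ⟨a, ha⟩ := hirr z hz.1
      have hc : F * z = z * F := (hz.2 F hF).symm
      have h1 : z * F = a • F := by
        rw [← ha, hc, Matrix.mul_assoc, hFF]
      have h2 : ∀ x y, F x y ≠ 0 → z x x = a := by
        intro x y hxy
        have h3 := congrFun (congrFun h1 x) y
        rw [hz', Matrix.diagonal_mul, Matrix.smul_apply, smul_eq_mul] at h3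
        exact mul_right_cancel₀ hxy h3
      have h3 : ∀ x y, F x y ≠ 0 → z y y = a := by
        intro x y hxy
        have h4 := congrFun (congrFun (hc.trans h1) x) y
        rw [hz', Matrix.mul_diagonal, Matrix.smul_apply, smul_eq_mul, mul_comm] at h4
        exact mul_right_cancel₀ hxy h4
      rw [h2 k l hkl, h3 i j hi]
    have h1 : pr α (top k) = pr α (top j) := by
      refine ext_rtS (pr_mem _) (pr_mem _) fun a => ?_
      rw [pr_rt, pr_rt]
      exact hT.same k j hk _ (dg_alpha_mem hA hS a)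
    have e1 : pr α k - pr α j = (pr α (top j) - pr α j) - (pr α (top k) - pr α k) := by
      rw [h1]
      abel
    rw [e1]
    exact (QL α).sub_mem (top_sub hA hS hT j) (top_sub hA hS hT k)
  -- the idempotents of the weights
  set D : EuclideanSpace ℝ σ → Matrix σ σ ℂ := fun μ =>
    diagonal fun k => if pr α k = μ then 1 else 0 with hD
  have hDF : ∀ μ, D μ * F = F * D μ := by
    intro μ
    ext k l
    rw [hD]
    simp only [Matrix.diagonal_mul, Matrix.mul_diagonal]
    by_cases h : F k l = 0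
    · rw [h]
      simp
    · rw [pr_of_comm hA hS hF h, mul_comm]
  have hDD : ∀ μ, D μ * D μ = D μ := by
    intro μ
    rw [hD]
    simp only [Matrix.diagonal_mul_diagonal]
    congr 1
    funext k
    split_ifs <;> simp
  have hid : ∀ μ, D μ * F * (D μ * F) = D μ * F := by
    intro μ
    calc D μ * F * (D μ * F) = D μ * (F * D μ) * F := by simp only [Matrix.mul_assoc]
      _ = (D μ * D μ) * (F * F) := by rw [← hDF]; simp only [Matrix.mul_assoc]
      _ = D μ * F := by rw [hDD, hFF]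
  have htr : ∀ μ, (D μ * F).trace = ∑ k, (if pr α k = μ then 1 else 0) * F k k := by
    intro μ
    rw [Matrix.trace]
    refine Finset.sum_congr rfl fun k _ => ?_
    rw [Matrix.diag_apply, hD]
    simp only [Matrix.diagonal_mul]
  set S : Finset (EuclideanSpace ℝ σ) := Finset.univ.image (pr α) with hSd
  set R : EuclideanSpace ℝ σ → ℕ := fun μ => (D μ * F).rank with hR
  have hRt : ∀ μ, (R μ : ℂ) = ∑ k, (if pr α k = μ then 1 else 0) * F k k := by
    intro μ
    rw [← htr, trace_rank (hid μ)]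
  have hsum1 : ∀ k, ∑ μ ∈ S, (if pr α k = μ then (1 : ℂ) else 0) = 1 := by
    intro k
    rw [Finset.sum_ite_eq]
    rw [if_pos (Finset.mem_image_of_mem _ (Finset.mem_univ k))]
  have hsum : (F.rank : ℂ) = ∑ μ ∈ S, (R μ : ℂ) := by
    simp only [hRt]
    rw [Finset.sum_comm, ← trace_rank hFF, Matrix.trace]
    refine Finset.sum_congr rfl fun k _ => ?_
    rw [← Finset.sum_mul, hsum1, one_mul, Matrix.diag_apply]
  have hsumN : F.rank = ∑ μ ∈ S, R μ := by exact_mod_cast hsum
  -- the sum of the weights is zero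
  have hzero : ∑ μ ∈ S, (R μ : ℝ) • μ = 0 := by
    have hm : ∀ μ ∈ S, μ ∈ rtS α := by
      intro μ hμ
      obtain ⟨k, -, rfl⟩ := Finset.mem_image.1 hμ
      exact pr_mem k
    refine ext_rtS (Submodule.sum_mem _ fun μ hμ => Submodule.smul_mem _ _ (hm μ hμ))
      (Submodule.zero_mem _) fun a => ?_
    rw [inner_zero_left, sum_inner]
    have h1 : (F * dg (α a)).trace = 0 := by
      have h2 : ∀ x ∈ der G, (F * x).trace = 0 := by
        intro x hx
        induction hx using Submodule.span_induction with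
        | mem x hx =>
          obtain ⟨y, hy, z, hz, rfl⟩ := hx
          rw [Matrix.mul_sub, Matrix.trace_sub, ← Matrix.mul_assoc, ← Matrix.mul_assoc,
            Matrix.trace_mul_comm (F * z) y, ← Matrix.mul_assoc, hF y hy, sub_self]
        | zero => simp
        | add x y _ _ h3 h4 => rw [Matrix.mul_add, Matrix.trace_add, h3, h4, add_zero]
        | smul c x _ h3 => rw [Matrix.mul_smul, Matrix.trace_smul, h3, smul_zero]
      exact h2 _ (dg_alpha_mem_der hA hS a)
    have h2 : (∑ μ ∈ S, ((R μ : ℝ) * ⟪μ, rt α a⟫_ℝ : ℝ) : ℂ) = 0 := by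
      rw [← h1, Matrix.trace]
      have h3 : ∀ k, (F * dg (α a)).diag k = F k k * (⟪pr α k, rt α a⟫_ℝ : ℂ) := by
        intro k
        rw [Matrix.diag_apply, dg, Matrix.mul_diagonal, pr_rt]
      simp only [h3]
      have h4 : ∀ μ, (((R μ : ℝ) * ⟪μ, rt α a⟫_ℝ : ℝ) : ℂ) =
          ∑ k, (if pr α k = μ then 1 else 0) * (F k k * (⟪pr α k, rt α a⟫_ℝ : ℂ)) := by
        intro μ
        push_cast
        rw [hRt, Finset.sum_mul]
        refine Finset.sum_congr rfl fun k _ => ?_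
        by_cases hk : pr α k = μ
        · rw [if_pos hk, hk]
          ring
        · rw [if_neg hk]
          ring
      push_cast at h4 ⊢
      simp only [h4]
      rw [Finset.sum_comm]
      refine Finset.sum_congr rfl fun k _ => ?_
      rw [← Finset.sum_mul, hsum1, one_mul]
    simp only [real_inner_smul_left]
    exact_mod_cast h2
  -- the nonzero terms are congruent to the weight of `j`
  have hcong : ∀ μ ∈ S, R μ ≠ 0 → μ - pr α j ∈ QL α := by
    intro μ hμ hR0
    have h1 : D μ * F ≠ 0 := by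
      intro h
      apply hR0
      show (D μ * F).rank = 0
      rw [h, Matrix.rank_zero]
    obtain ⟨k, l, hkl⟩ : ∃ k l, (D μ * F) k l ≠ 0 := by
      by_contra h
      push Not at h
      exact h1 (by ext k l; exact h k l)
    rw [hD] at hkl
    simp only [Matrix.diagonal_mul] at hkl
    have hk : pr α k = μ := by
      by_contra h
      rw [if_neg h, zero_mul] at hkl
      exact hkl rfl
    have hFk : F k l ≠ 0 := right_ne_zero_of_mul hkl
    rw [← hk]
    exact hcl k l hFk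
  have hfin : (F.rank : ℝ) • pr α j = -∑ μ ∈ S, (R μ : ℤ) • (μ - pr α j) := by
    have e1 : ∑ μ ∈ S, (R μ : ℤ) • (μ - pr α j) =
        ∑ μ ∈ S, (R μ : ℝ) • μ - (∑ μ ∈ S, (R μ : ℝ)) • pr α j := by
      rw [Finset.sum_smul, ← Finset.sum_sub_distrib]
      refine Finset.sum_congr rfl fun μ _ => ?_
      rw [← smul_sub, ← Int.cast_smul_eq_zsmul ℝ]
      push_cast
      rfl
    rw [e1, hzero, zero_sub, neg_neg, hsumN]
    push_cast
    rfl
  rw [hfin]
  refine (QL α).neg_mem ((QL α).sum_mem fun μ hμ => ?_)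
  by_cases h0 : R μ = 0
  · rw [h0]
    simp
  · exact (QL α).zsmul_mem (hcong μ hμ h0) _

/-- (e) the elements of `RW` are relations -/
theorem RW_le {p : ℕ} {𝓗 : Set (Matrix σ σ ℂ)} (hA : Adapted G ρ) (hS : Simple G ρ r e α)
    (hT : Top G r e α top nn) {B : Matrix σ σ ℂ} {n : ℕ} {F : Fin n → Matrix σ σ ℂ}
    {w : Fin n → Prop} (hD : Dec G B F w) : RW p G 𝓗 α top F w ≤ RG' G α top := by
  refine sup_le ?_ ?_
  · rw [AddSubgroup.closure_le]
    rintro b ⟨k, t, h, -, rfl⟩
    exact isRel_tuple t h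
  · rw [AddSubgroup.closure_le]
    rintro b ⟨m, j, hw, hj, rfl⟩
    refine rel_conv hA hS hT ?_
    rw [map_zsmul, Fw_single]
    have h1 := det_rel hA hS hT (fun y hy => hD.comm m y hy) (hD.idem m) (hD.irr m hw) hj
    rw [← Int.cast_smul_eq_zsmul ℝ]
    exact_mod_cast h1

/-- (e) explicitly -/
theorem isRel_of_mem {p : ℕ} {𝓗 : Set (Matrix σ σ ℂ)} (hA : Adapted G ρ)
    (hS : Simple G ρ r e α) (hT : Top G r e α top nn) {B : Matrix σ σ ℂ} {n : ℕ}
    {F : Fin n → Matrix σ σ ℂ} {w : Fin n → Prop} (hD : Dec G B F w) {b : σ → ℤ}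
    (hb : b ∈ RW p G 𝓗 α top F w) : IsRel G α top b := RW_le hA hS hT hD hb

end Pool.Agent.H64.Ta
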